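import Pool.Agent.NH11.PV.Block
import Pool.Agent.NH11.PV.Third

set_option autoImplicit false

/-! # The mean multiplicity of the zeros and the averaged number of pairs of different zeros -/

namespace Pool.Agent.NH10.DZ

open Filter Topology Set MeasureTheory
open Pool.Agent.NH11.PV
open H370 (mult zset NN good_zeta)

/-- the sum of the squares of the multiplicities -/
noncomputable def MM (T : ℝ) : ℝ := ∑ s ∈ Zb T (2 * T), mz s ^ 2

open scoped Classical in
/-- pairs of different zeros -/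
noncomputable def P2 (T a : ℝ) : ℝ := ∑ s ∈ Zb T (2 * T), ∑ s' ∈ Zb T (2 * T), mz s * mz s' *
  ((if s ≠ s' then 1 else 0) * (if |s.im - s'.im| ≤ 2 * Real.pi * a / Real.log T then 1 else 0))

lemma stepi' {c b : ℝ} (hc : 0 ≤ c) (hb : 0 ≤ b) :
    ∫ a in (0 : ℝ)..b, (if c ≤ a then (1 : ℝ) else 0) = max 0 (b - c) := by
  rcases hc.eq_or_lt with rfl | hc
  · have : ∫ a in (0 : ℝ)..b, (if (0 : ℝ) ≤ a then (1 : ℝ) else 0) = ∫ a in (0 : ℝ)..b, (1 : ℝ) := by
      apply intervalIntegral.integral_congr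
      intro a ha
      rw [Set.uIcc_of_le hb] at ha
      simp only
      rw [if_pos ha.1]
    rw [this]
    simp [hb]
  · exact stepi hc hb

lemma stepI {S : Finset ℂ} (g : ℂ → ℂ → ℝ) (x : ℂ → ℂ → ℝ) {b : ℝ} :
    IntervalIntegrable (fun a : ℝ => ∑ s ∈ S, ∑ s' ∈ S, g s s' * (if x s s' ≤ a then 1 else 0))
      volume 0 b := by
  have e1 : (fun a : ℝ => ∑ s ∈ S, ∑ s' ∈ S, g s s' * (if x s s' ≤ a then 1 else 0)) =
      ∑ s ∈ S, ∑ s' ∈ S, fun a : ℝ => g s s' * (if x s s' ≤ a then 1 else 0) := by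
    funext a
    simp only [Finset.sum_apply]
  rw [e1]
  exact IntervalIntegrable.sum _ fun s _ => IntervalIntegrable.sum _ fun s' _ =>
    (stepf _ 0 b).const_mul _

lemma stepJ {S : Finset ℂ} (g : ℂ → ℂ → ℝ) (x : ℂ → ℂ → ℝ) (hx : ∀ s s', 0 ≤ x s s') {b : ℝ}
    (hb : 0 ≤ b) :
    ∫ a in (0 : ℝ)..b, (∑ s ∈ S, ∑ s' ∈ S, g s s' * (if x s s' ≤ a then (1 : ℝ) else 0)) =
      ∑ s ∈ S, ∑ s' ∈ S, g s s' * max 0 (b - x s s') := by
  rw [intervalIntegral.integral_finsetSum]
  · refine Finset.sum_congr rfl fun s _ => ?_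
    rw [intervalIntegral.integral_finsetSum]
    · refine Finset.sum_congr rfl fun s' _ => ?_
      rw [intervalIntegral.integral_const_mul, stepi' (hx s s') hb]
    · intro s' _
      exact (stepf _ 0 b).const_mul _
  · intro s _
    have e1 : (fun a : ℝ => ∑ s' ∈ S, g s s' * (if x s s' ≤ a then (1 : ℝ) else 0)) =
        ∑ s' ∈ S, fun a : ℝ => g s s' * (if x s s' ≤ a then 1 else 0) := by
      funext a
      simp only [Finset.sum_apply]
    rw [e1]
    exact IntervalIntegrable.sum _ fun s' _ => (stepf _ 0 b).const_mul _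

lemma P2_eq {T : ℝ} (hT : 1 < T) (a : ℝ) : P2 T a =
    ∑ s ∈ Zb T (2 * T), ∑ s' ∈ Zb T (2 * T), (mz s * mz s' * (open scoped Classical in
      (if s ≠ s' then (1 : ℝ) else 0))) *
      (if |(s.im - s'.im) * Real.log T / (2 * Real.pi)| ≤ a then 1 else 0) := by
  classical
  have hpi := Real.pi_pos
  have hL0 : 0 < Real.log T := Real.log_pos hT
  unfold P2
  refine Finset.sum_congr rfl fun s _ => Finset.sum_congr rfl fun s' _ => ?_
  have e : |s.im - s'.im| ≤ 2 * Real.pi * a / Real.log T ↔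
      |(s.im - s'.im) * Real.log T / (2 * Real.pi)| ≤ a := by
    rw [abs_div, abs_mul, abs_of_pos hL0, abs_of_pos (by positivity : 0 < 2 * Real.pi),
      le_div_iff₀ hL0, div_le_iff₀ (by positivity), mul_comm a]
  simp only [e]
  rw [mul_assoc (mz s * mz s')]

/-- the pair sum of the tent in terms of the pairs of different zeros -/
theorem VV_P2 {T b : ℝ} (hT : 1 < T) (hb : 0 ≤ b) :
    IntervalIntegrable (fun a => P2 T a) volume 0 b ∧
    VV (Zb T (2 * T)) b (Real.log T) = b * MM T + ∫ a in (0 : ℝ)..b, P2 T a := by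
  classical
  have e : (fun a => P2 T a) = fun a =>
    ∑ s ∈ Zb T (2 * T), ∑ s' ∈ Zb T (2 * T), (mz s * mz s' *
      (if s ≠ s' then (1 : ℝ) else 0)) *
      (if |(s.im - s'.im) * Real.log T / (2 * Real.pi)| ≤ a then 1 else 0) := by
    funext a
    rw [P2_eq hT a]
  rw [e]
  refine ⟨stepI _ _, ?_⟩
  rw [stepJ _ _ (fun s s' => abs_nonneg _) hb]
  unfold VV MM
  rw [Finset.mul_sum, ← Finset.sum_add_distrib]
  refine Finset.sum_congr rfl fun s hs => ?_
  have h1 : b * mz s ^ 2 = ∑ s' ∈ Zb T (2 * T), if s = s' then b * (mz s * mz s') else 0 := by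
    rw [Finset.sum_ite_eq, if_pos hs]
    ring
  rw [h1, ← Finset.sum_add_distrib]
  refine Finset.sum_congr rfl fun s' _ => ?_
  by_cases h : s = s'
  · subst h
    unfold tent
    simp
    rw [max_eq_right hb]
    ring
  · rw [if_neg h, if_pos h]
    unfold tent
    ring

/-- there are many zeros -/
lemma TL_le : ∃ T0 : ℝ, 10 ≤ T0 ∧ ∀ T : ℝ, T0 ≤ T →
    T * Real.log T ≤ 9 * NN riemannZeta T (2 * T) := by
  obtain ⟨Cn, Tn, hCn, hTn, hn⟩ := H370.nn_asymp good_zeta
  have hpi := Real.pi_gt_three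
  have hpi4 := Real.pi_lt_d2
  have ev : ∀ᶠ T : ℝ in atTop, 8 * Cn ≤ Real.log T / Real.pi :=
    (Real.tendsto_log_atTop.atTop_div_const Real.pi_pos).eventually_ge_atTop _
  obtain ⟨T1, hT1⟩ := ev.exists_forall_of_atTop
  refine ⟨max 10 (max Tn T1), le_max_left _ _, fun T hT => ?_⟩
  have hT10 : 10 ≤ T := (le_max_left _ _).trans hT
  have hTTn : Tn ≤ T := ((le_max_left _ _).trans (le_max_right _ _)).trans hT
  have e1 := hT1 T (((le_max_right _ _).trans (le_max_right _ _)).trans hT)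
  set L := Real.log T with hL
  have hL0 : 0 < L := Real.log_pos (by linarith)
  have hT0' : 0 < T := by linarith
  have h6 := (abs_le.1 (hn T hTTn T (2 * T) le_rfl (by linarith) (by linarith) le_rfl)).1
  have h7 : T * L / (2 * Real.pi) = T / 2 * (L / Real.pi) := by field_simp
  have h8 : Cn * T ≤ T / 8 * (L / Real.pi) := by nlinarith
  have h9 : T * (L / Real.pi) * Real.pi = T * L := by field_simp
  have h10 : 3 / 8 * (T * (L / Real.pi)) ≤ NN riemannZeta T (2 * T) := by linarith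
  have h11 : 0 ≤ T * (L / Real.pi) := by positivity
  have h12 : T * (L / Real.pi) * Real.pi ≤ T * (L / Real.pi) * 3.15 :=
    mul_le_mul_of_nonneg_left hpi4.le h11
  linarith

/-- **the formula for the mean multiplicity** -/
theorem formula : ∃ C : ℝ, 0 < C ∧ ∀ b : ℝ, 0 < b → ∃ T0 : ℝ, 10 ≤ T0 ∧ ∀ T : ℝ, T0 ≤ T →
    0 < (NN riemannZeta T (2 * T) : ℝ) ∧
    |(∫ a in (0 : ℝ)..b, (P2 T a / NN riemannZeta T (2 * T) - 2 * GG a)) +
      b * (MM T / NN riemannZeta T (2 * T) - 1)| ≤ C := by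
  obtain ⟨C, hC, hblk⟩ := blk
  obtain ⟨T1, hT1, hTL⟩ := TL_le
  refine ⟨C + 1, by linarith, fun b hb => ?_⟩
  obtain ⟨U0, hU0, h⟩ := hblk b hb
  refine ⟨max U0 T1, hU0.trans (le_max_left _ _), fun T hT => ?_⟩
  have h1 := h T ((le_max_left _ _).trans hT)
  have h2 := hTL T ((le_max_right _ _).trans hT)
  have hT10 : 10 ≤ T := (hU0.trans (le_max_left _ _)).trans hT
  have hL0 : 0 < Real.log T := Real.log_pos (by linarith)
  have hN : 0 < (NN riemannZeta T (2 * T) : ℝ) := by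
    have : 0 < T * Real.log T := by
      have : 0 < T := by linarith
      positivity
    linarith
  refine ⟨hN, ?_⟩
  set N : ℝ := (NN riemannZeta T (2 * T) : ℝ) with hNd
  obtain ⟨hi, hV⟩ := VV_P2 (T := T) (by linarith) hb.le
  rw [hV, PP_eq hb] at h1
  rw [intervalIntegral.integral_sub (hi.div_const N)
    ((GG_cont.intervalIntegrable _ _).const_mul 2), intervalIntegral.integral_div,
    intervalIntegral.integral_const_mul]
  set I := ∫ a in (0 : ℝ)..b, P2 T a with hI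
  set J := ∫ a in (0 : ℝ)..b, GG a with hJ
  have e : I / N - 2 * J + b * (MM T / N - 1) = (b * MM T + I - (b + 2 * J) * N) / N := by
    field_simp
    ring
  rw [e, abs_div, abs_of_pos hN, div_le_iff₀ hN]
  nlinarith

/-! ## the multiplicities and the number of distinct zeros -/

lemma mz_nat (s : ℂ) : mz s = (mult riemannZeta s : ℝ) := rfl

lemma mz_one {T : ℝ} (hT : 1 ≤ T) {s : ℂ} (hs : s ∈ Zb T (2 * T)) : 1 ≤ mult riemannZeta s := by
  rw [mem_Zb hT] at hs
  obtain ⟨h1, h2, h3, h4, h5⟩ := hs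
  exact zmult_pos (by linarith) h5

lemma nd_card {T : ℝ} (hT : 1 ≤ T) : H370.Nd riemannZeta T (2 * T) = (Zb T (2 * T)).card := by
  unfold H370.Nd
  have : zset riemannZeta T (2 * T) = ↑(Zb T (2 * T)) := by
    ext s
    rw [Finset.mem_coe, mem_Zb hT]
  rw [this, Set.ncard_coe_finset]

lemma diff_eq {T : ℝ} (hT : 1 ≤ T) : (NN riemannZeta T (2 * T) : ℝ) -
    H370.Nd riemannZeta T (2 * T) = ∑ s ∈ Zb T (2 * T), (mz s - 1) := by
  rw [nd_card hT, ← sum_Zb hT, Finset.sum_sub_distrib]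
  simp

/-- the lower bound for the sum of squares -/
theorem two_diff_le {T : ℝ} (hT : 1 ≤ T) : 2 * ((NN riemannZeta T (2 * T) : ℝ) -
    H370.Nd riemannZeta T (2 * T)) ≤ MM T - NN riemannZeta T (2 * T) := by
  rw [diff_eq hT, ← sum_Zb hT]
  unfold MM
  rw [← Finset.sum_sub_distrib, Finset.mul_sum]
  refine Finset.sum_le_sum fun s hs => ?_
  have h1 := mz_one hT hs
  rw [mz_nat]
  rcases Nat.lt_or_ge (mult riemannZeta s) 2 with h | h
  · have : mult riemannZeta s = 1 := by omega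
    rw [this]; norm_num
  · have h1' : (2 : ℝ) ≤ mult riemannZeta s := by exact_mod_cast h
    nlinarith

lemma diff_nonneg {T : ℝ} (hT : 1 ≤ T) : 0 ≤ (NN riemannZeta T (2 * T) : ℝ) -
    H370.Nd riemannZeta T (2 * T) := by
  rw [diff_eq hT]
  refine Finset.sum_nonneg fun s hs => ?_
  have h1 : (1 : ℝ) ≤ mult riemannZeta s := by exact_mod_cast mz_one hT hs
  rw [mz_nat]
  linarith

/-- the upper bound for the sum of squares -/
theorem sq_le : ∃ C T0 : ℝ, 0 < C ∧ 10 ≤ T0 ∧ ∀ T : ℝ, T0 ≤ T →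
    (MM T - NN riemannZeta T (2 * T)) ^ 2 ≤
      ((NN riemannZeta T (2 * T) : ℝ) - H370.Nd riemannZeta T (2 * T)) *
        (C * NN riemannZeta T (2 * T)) := by
  obtain ⟨C, T0, hC, hT0, h⟩ := QQ_blk
  obtain ⟨T1, hT1, hTL⟩ := TL_le
  refine ⟨C * 9, max T0 T1, by positivity, hT0.trans (le_max_left _ _), fun T hT => ?_⟩
  have h1 := h T ((le_max_left _ _).trans hT)
  have h2 := hTL T ((le_max_right _ _).trans hT)
  have hT10 : 10 ≤ T := (hT0.trans (le_max_left _ _)).trans hT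
  have hT1' : 1 ≤ T := by linarith
  have hm : ∀ s ∈ Zb T (2 * T), (1 : ℝ) ≤ mz s := fun s hs => by
    rw [mz_nat]; exact_mod_cast mz_one hT1' hs
  have e1 : MM T - NN riemannZeta T (2 * T) = ∑ s ∈ Zb T (2 * T), mz s * (mz s - 1) := by
    rw [← sum_Zb hT1']
    unfold MM
    rw [← Finset.sum_sub_distrib]
    refine Finset.sum_congr rfl fun s _ => by ring
  have h3 : (∑ s ∈ Zb T (2 * T), mz s * (mz s - 1)) ^ 2 ≤
      (∑ s ∈ Zb T (2 * T), (mz s - 1)) * ∑ s ∈ Zb T (2 * T), mz s ^ 2 * (mz s - 1) := by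
    apply Finset.sum_sq_le_sum_mul_sum_of_sq_le_mul
    · intro s hs; have := hm s hs; linarith
    · intro s hs; have := hm s hs; exact mul_nonneg (sq_nonneg _) (by linarith)
    · intro s _; exact le_of_eq (by ring)
  have h4 : ∑ s ∈ Zb T (2 * T), mz s ^ 2 * (mz s - 1) ≤ QQ (Zb T (2 * T)) := by
    unfold QQ
    refine Finset.sum_le_sum fun s hs => ?_
    have h5 := hm s hs
    have h6 : mz s ≤ nn (Zb T (2 * T)) s := by
      unfold nn
      calc mz s = mz s * (if s.im = s.im then 1 else 0) := by simp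
        _ ≤ _ := Finset.single_le_sum (f := fun s' => mz s' * (if s.im = s'.im then 1 else 0))
          (fun s' _ => mul_nonneg (mz_nonneg _) (by split_ifs <;> norm_num)) hs
    have h7 : mz s ^ 2 ≤ nn (Zb T (2 * T)) s ^ 2 := pow_le_pow_left₀ (by linarith) h6 2
    nlinarith
  rw [e1, diff_eq hT1']
  have h5 : 0 ≤ ∑ s ∈ Zb T (2 * T), (mz s - 1) :=
    Finset.sum_nonneg fun s hs => by have := hm s hs; linarith
  refine h3.trans (mul_le_mul_of_nonneg_left ?_ h5)
  calc _ ≤ QQ (Zb T (2 * T)) := h4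
    _ ≤ C * (T * Real.log T) := h1
    _ ≤ C * (9 * NN riemannZeta T (2 * T)) := by gcongr
    _ = _ := by ring

end Pool.Agent.NH10.DZ
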