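import Pool.Agent.NH10.DZ.Crit

set_option autoImplicit false

/-! # The criterion for the distinct zeros of the zeta function -/

namespace Pool.Agent.NH10.DZ

open Filter Topology Set MeasureTheory
open Pool.Agent.NH11.PV
open H370 (mult zset NN good_zeta)

/-- the mean deficiency of the pairs of different zeros -/
noncomputable def DD (T B : ℝ) : ℝ :=
  (1 / B) * ∫ a in (0 : ℝ)..B, (2 * GG a - P2 T a / NN riemannZeta T (2 * T))

/-- the proportion of distinct zeros -/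
noncomputable def rd (T : ℝ) : ℝ := (H370.Nd riemannZeta T (2 * T) : ℝ) / NN riemannZeta T (2 * T)

/-- the mean of the multiplicities -/
noncomputable def mm (T : ℝ) : ℝ := MM T / NN riemannZeta T (2 * T)

/-- the formula and the two inequalities -/
theorem quant : ∃ C : ℝ, 0 < C ∧ ∀ B : ℝ, 0 < B → ∃ T0 : ℝ, 10 ≤ T0 ∧ ∀ T : ℝ, T0 ≤ T →
    |DD T B - (mm T - 1)| ≤ C / B ∧ 2 * (1 - rd T) ≤ mm T - 1 ∧ 0 ≤ 1 - rd T ∧
      (mm T - 1) ^ 2 ≤ C * (1 - rd T) := by
  obtain ⟨C, hC, hf⟩ := formula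
  obtain ⟨C2, T2, hC2, hT2, hsq⟩ := sq_le
  refine ⟨C + C2, by positivity, fun B hB => ?_⟩
  obtain ⟨T1, hT1, h⟩ := hf B hB
  refine ⟨max T1 T2, hT1.trans (le_max_left _ _), fun T hT => ?_⟩
  obtain ⟨hN, h1⟩ := h T ((le_max_left _ _).trans hT)
  have h2 := hsq T ((le_max_right _ _).trans hT)
  have hT10 : 10 ≤ T := (hT1.trans (le_max_left _ _)).trans hT
  have hT1' : 1 ≤ T := by linarith
  have h3 := two_diff_le hT1'
  have h4 := diff_nonneg hT1'
  set N : ℝ := (NN riemannZeta T (2 * T) : ℝ) with hNd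
  set D : ℝ := (H370.Nd riemannZeta T (2 * T) : ℝ) with hDd
  have er : 1 - rd T = (N - D) / N := by
    unfold rd
    rw [← hNd, ← hDd]
    field_simp
  have em : mm T - 1 = (MM T - N) / N := by
    unfold mm
    rw [← hNd]
    field_simp
  refine ⟨?_, ?_, ?_, ?_⟩
  · have e : DD T B - (mm T - 1) = -((1 / B) *
        ((∫ a in (0 : ℝ)..B, (P2 T a / N - 2 * GG a)) + B * (MM T / N - 1))) := by
      have e1 : (∫ a in (0 : ℝ)..B, (2 * GG a - P2 T a / N)) =
          -∫ a in (0 : ℝ)..B, (P2 T a / N - 2 * GG a) := by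
        rw [← intervalIntegral.integral_neg]
        congr 1
        funext a
        ring
      unfold DD mm
      rw [← hNd, e1]
      field_simp
      ring
    rw [e, abs_neg, abs_mul, abs_of_pos (by positivity : 0 < 1 / B), one_div, ← div_eq_inv_mul]
    apply div_le_div_of_nonneg_right _ hB.le
    linarith
  · rw [er, em, mul_div_assoc', div_le_div_iff_of_pos_right hN]
    linarith
  · rw [er]
    positivity
  · rw [er, em, div_pow, div_le_iff₀ (by positivity)]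
    have e : (C + C2) * ((N - D) / N) * N ^ 2 = (N - D) * ((C + C2) * N) := by
      field_simp
    rw [e]
    refine h2.trans (mul_le_mul_of_nonneg_left ?_ h4)
    nlinarith

/-- the criterion, in the weakest form -/
theorem crit_of (h : ∀ ε : ℝ, 0 < ε → ∃ B : ℝ, 1 / ε ≤ B ∧ ∃ T0 : ℝ, ∀ T : ℝ, T0 ≤ T →
    DD T B ≤ ε) : Tendsto rd atTop (𝓝 1) := by
  obtain ⟨C, hC, hq⟩ := quant
  rw [Metric.tendsto_atTop]
  intro ε hε
  set η : ℝ := ε / (1 + C) with hη
  have hη0 : 0 < η := by positivity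
  obtain ⟨B, hB, T1, h1⟩ := h η hη0
  have hB0 : 0 < B := lt_of_lt_of_le (by positivity) hB
  obtain ⟨T2, hT2, h2⟩ := hq B hB0
  refine ⟨max T1 T2, fun T hT => ?_⟩
  have g1 := h1 T ((le_max_left _ _).trans hT)
  obtain ⟨g2, g3, g4, -⟩ := h2 T ((le_max_right _ _).trans hT)
  have g5 := (abs_le.1 g2).1
  have g6 : C / B ≤ C * η := by
    rw [div_le_iff₀ hB0]
    have : 1 ≤ η * B := by
      rwa [div_le_iff₀ hη0, mul_comm] at hB
    nlinarith
  have g7 : η * (1 + C) = ε := by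
    rw [hη]
    field_simp
  rw [Real.dist_eq, abs_sub_comm, abs_of_nonneg g4]
  nlinarith

/-- the converse, in the strongest form -/
theorem crit_to (h : Tendsto rd atTop (𝓝 1)) : ∀ ε : ℝ, 0 < ε → ∃ B₀ : ℝ, 0 < B₀ ∧
    ∀ B : ℝ, B₀ ≤ B → ∃ T0 : ℝ, ∀ T : ℝ, T0 ≤ T → |DD T B| ≤ ε := by
  obtain ⟨C, hC, hq⟩ := quant
  intro ε hε
  refine ⟨2 * C / ε, by positivity, fun B hB => ?_⟩
  have hB0 : 0 < B := lt_of_lt_of_le (by positivity) hB
  obtain ⟨T2, hT2, h2⟩ := hq B hB0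
  obtain ⟨T1, h1⟩ := (Metric.tendsto_atTop.1 h) ((ε / 2) ^ 2 / C) (by positivity)
  refine ⟨max T1 T2, fun T hT => ?_⟩
  have g1 := h1 T ((le_max_left _ _).trans hT)
  obtain ⟨g2, g3, g4, g5⟩ := h2 T ((le_max_right _ _).trans hT)
  rw [Real.dist_eq, abs_sub_comm, abs_of_nonneg g4] at g1
  have g6 : (mm T - 1) ^ 2 ≤ (ε / 2) ^ 2 := by
    refine g5.trans ?_
    have := mul_le_mul_of_nonneg_left g1.le hC.le
    rwa [mul_div_cancel₀ _ hC.ne'] at this
  have g7 : |mm T - 1| ≤ ε / 2 := abs_le_of_sq_le_sq g6 (by positivity)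
  have g8 : C / B ≤ ε / 2 := by
    rw [div_le_iff₀ hB0]
    rw [div_le_iff₀ hε] at hB
    linarith
  calc |DD T B| = |(DD T B - (mm T - 1)) + (mm T - 1)| := by congr 1; ring
    _ ≤ |DD T B - (mm T - 1)| + |mm T - 1| := abs_add_le _ _
    _ ≤ ε := by linarith

end Pool.Agent.NH10.DZ
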